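import Mathlib
import Pool.Agent.Helper278.TB.Rist

set_option autoImplicit false

namespace Pool.Agent.K6.H36.EX

open Pool.Agent.Helper278.TB

section

variable {K : Type} [Field K]

/-- truncated coefficient -/
def trc (n : ℕ) (c : List (B K) → K) : List (B K) → K := fun h => if h.length < n then c h else 0

theorem trc_cons (n : ℕ) (c : List (B K) → K) (v : B K) :
    (fun h => trc (n + 1) c (v :: h)) = trc n (fun h => c (v :: h)) := by
  funext h
  simp only [trc, List.length_cons]
  by_cases hh : h.length < n
  · rw [if_pos hh, if_pos (by omega)]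
  · rw [if_neg hh, if_neg (by omega)]

theorem T_trc (i : Fin 4) (j : Option (Fin 4)) (w : List (B K)) :
    ∀ (n : ℕ) (c : List (B K) → K), T i j (trc n c) w = T i j c (w.take n) ++ w.drop n := by
  induction w with
  | nil => intro n c; simp [T]
  | cons v w ih =>
    intro n c
    cases n with
    | zero =>
      have h0 : (trc 0 c : List (B K) → K) = fun _ => 0 := by
        funext h
        simp [trc]
      rw [h0, T_zero]
      simp [T]
    | succ n =>
      rw [List.take_succ_cons, List.drop_succ_cons]
      show el i j (trc (n + 1) c []) v :: T i j (fun h => trc (n + 1) c (v :: h)) w =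
        (el i j (c []) v :: T i j (fun h => c (v :: h)) (w.take n)) ++ w.drop n
      rw [trc_cons, ih]
      have h1 : trc (n + 1) c [] = c [] := by simp [trc]
      rw [h1]
      rfl

theorem Lam_mem [Fintype K] (φ : B K → Equiv.Perm (List (B K))) (h : ∀ v, φ v ∈ Kg K) :
    Lam φ ∈ Kg K := by
  classical
  have key : ∀ S : Finset (B K), Lam (fun v => if v ∈ S then φ v else 1) ∈ Kg K := by
    intro S
    induction S using Finset.induction_on with
    | empty =>
      have e : (fun v : B K => if v ∈ (∅ : Finset (B K)) then φ v else 1) =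
          fun _ => (1 : Equiv.Perm (List (B K))) := by
        funext v
        simp
      rw [e, Lam_one]
      exact (Kg K).one_mem
    | insert b S hb ih =>
      have e : (fun v : B K => if v ∈ insert b S then φ v else 1) =
          fun v => (if v = b then φ b else 1) * (if v ∈ S then φ v else 1) := by
        funext v
        by_cases hv : v = b
        · subst hv
          simp [hb]
        · simp [hv]
      rw [e, Lam_mul]
      refine (Kg K).mul_mem ?_ ih
      have h2 := at'_mem b (φ b) (h b)
      unfold at' at h2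
      convert h2
  have h3 := key Finset.univ
  simpa using h3

theorem TP_trc_mem [Fintype K] (i : Fin 4) (j : Option (Fin 4)) (h : j ≠ some i) (n : ℕ) :
    ∀ c : List (B K) → K, TP i j (trc n c) ∈ Kg K := by
  induction n with
  | zero =>
    intro c
    have h0 : (trc 0 c : List (B K) → K) = fun _ => 0 := by
      funext h
      simp [trc]
    rw [h0, TP_zero]
    exact (Kg K).one_mem
  | succ n ih =>
    intro c
    rw [TP_rec, ← R_eq]
    refine (Kg K).mul_mem (R_mem_Kg i j h _) (Lam_mem _ fun v => ?_)
    rw [trc_cons]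
    exact ih _

theorem data_ne (n : Fin 14) : (data n).2.1 ≠ some (data n).1 := by
  revert n
  decide

omit [Field K] in
theorem take_app (n : ℕ) (w u : List (B K)) (h : u.length = (w.take n).length) :
    (u ++ w.drop n).take n = u ∧ (u ++ w.drop n).drop n = w.drop n := by
  rw [List.length_take] at h
  rcases le_total n w.length with hn | hn
  · have hu : u.length = n := by omega
    constructor
    · rw [List.take_append_of_le_length (by omega), List.take_of_length_le (by omega)]
    · rw [List.drop_append, List.drop_of_length_le (by omega)]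
      simp [hu]
  · have hd : w.drop n = [] := List.drop_of_length_le hn
    rw [hd, List.append_nil]
    exact ⟨List.take_of_length_le (by omega), List.drop_of_length_le (by omega)⟩

/-- truncations of elements of the group are in the group -/
theorem trunc_mem [Fintype K] (g : Equiv.Perm (List (B K))) (hg : g ∈ G K) (n : ℕ) :
    ∃ h ∈ G K, ∀ w, h w = g (w.take n) ++ w.drop n := by
  unfold G at hg
  induction hg using Subgroup.closure_induction with
  | mem x hx =>
    obtain ⟨m, t, rfl⟩ := hx
    exact ⟨_, Kg_le (TP_trc_mem (data m).1 (data m).2.1 (data_ne m) n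
      (fun h => t * lf (data m).2.2 h)), fun w => T_trc _ _ w n _⟩
  | one => exact ⟨1, (G K).one_mem, fun w => by simp⟩
  | mul x y hx hy ihx ihy =>
    obtain ⟨a, ha, ha'⟩ := ihx
    obtain ⟨b, hb, hb'⟩ := ihy
    refine ⟨a * b, (G K).mul_mem ha hb, fun w => ?_⟩
    rw [Equiv.Perm.mul_apply, hb', ha', Equiv.Perm.mul_apply]
    have h1 := take_app n w (y (w.take n)) (G_length y hy _)
    rw [h1.1, h1.2]
  | inv x hx ih =>
    obtain ⟨a, ha, ha'⟩ := ih
    refine ⟨a⁻¹, (G K).inv_mem ha, fun w => ?_⟩
    rw [Equiv.Perm.inv_eq_iff_eq, ha']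
    have h1 := take_app n w (x⁻¹ (w.take n)) (G_length x⁻¹ ((G K).inv_mem hx) _)
    rw [h1.1, h1.2]
    simp

/-- the elements of finite depth used for conjugation -/
noncomputable def kk (v : List (B K)) (m : ℕ) : Equiv.Perm (List (B K)) :=
  atw (v ++ List.replicate m 0) (R 0 none 1)

theorem kk_mem [Fintype K] (v : List (B K)) (m : ℕ) : kk v m ∈ G K :=
  Kg_le (atw_mem _ _ (R_mem_Kg 0 none (by simp) 1))

theorem kk_inv (v : List (B K)) (m : ℕ) (r : List (B K)) :
    (kk v m)⁻¹ ((v ++ List.replicate m 0) ++ r) =
      (v ++ List.replicate m 0) ++ (R 0 none 1)⁻¹ r := by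
  rw [Equiv.Perm.inv_eq_iff_eq]
  unfold kk
  rw [atw_apply]
  simp

theorem kk_fix (v v' : List (B K)) (hl : v'.length = v.length) (hne : v' ≠ v) (m : ℕ)
    (r : List (B K)) : kk v m (v' ++ r) = v' ++ r := by
  refine atw_apply_of _ _ _ fun hp => hne ?_
  have h1 : v <+: v' ++ r := (List.prefix_append v _).trans hp
  obtain ⟨t, ht⟩ := h1
  exact (List.append_inj ht hl.symm).1.symm

theorem conj_apply [Fintype K] (g : Equiv.Perm (List (B K))) (hg : g ∈ G K) (v : List (B K))
    (hv : g v ≠ v) (m : ℕ) (r : List (B K)) :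
    (kk v m * g * (kk v m)⁻¹) ((v ++ List.replicate m 0) ++ r) =
      g ((v ++ List.replicate m 0) ++ (R 0 none 1)⁻¹ r) := by
  rw [Equiv.Perm.mul_apply, Equiv.Perm.mul_apply, kk_inv]
  obtain ⟨s, hs, hs'⟩ := sec g hg v
  rw [List.append_assoc, hs']
  exact kk_fix v (g v) (G_length g hg v) hv m _

theorem conj_ne [Fintype K] (g : Equiv.Perm (List (B K))) (hg : g ∈ G K) (v : List (B K))
    (hv : g v ≠ v) (l m : ℕ) (hlm : l < m) :
    kk v l * g * (kk v l)⁻¹ ≠ kk v m * g * (kk v m)⁻¹ := by
  intro he
  obtain ⟨q, rfl⟩ := Nat.exists_eq_add_of_lt hlm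
  have h1 := conj_apply g hg v hv (l + q + 1) [0]
  have e1 : (v ++ List.replicate (l + q + 1) (0 : B K)) ++ [0] =
      (v ++ List.replicate l 0) ++ (0 :: (List.replicate q 0 ++ [0])) := by
    rw [add_assoc, List.replicate_add, List.replicate_succ]
    simp
  have h2 := conj_apply g hg v hv l (0 :: (List.replicate q 0 ++ [0]))
  rw [← e1, he, h1] at h2
  have h3 := g.injective h2
  have e2 : (v ++ List.replicate (l + q + 1) (0 : B K)) ++ (R 0 none 1)⁻¹ [0] =
      (v ++ List.replicate l 0) ++ (0 :: (List.replicate q 0 ++ (R 0 none 1)⁻¹ [0])) := by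
    rw [add_assoc, List.replicate_add, List.replicate_succ]
    simp
  rw [e2] at h3
  have h4 := List.append_cancel_left h3
  have h5 : (R 0 none (1 : K))⁻¹ (0 :: (List.replicate q 0 ++ [0])) =
      (elP 0 none (1 : K))⁻¹ 0 :: (List.replicate q 0 ++ [0]) := by
    rw [R_eq]
    rfl
  rw [h5] at h4
  have h6 : (0 : B K) = (elP 0 none (1 : K))⁻¹ 0 := (List.cons.inj h4).1
  rw [eq_comm, Equiv.Perm.inv_eq_iff_eq] at h6
  have h7 : (elP 0 none (1 : K)) 0 = Function.update (0 : B K) 0 ((0 : B K) 0 + 1 * 1) := by
    show el 0 none (1 : K) 0 = _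
    unfold el
    rw [if_neg (by simp)]
    rfl
  rw [h7] at h6
  have h8 := congrFun h6 0
  simp at h8

theorem kk_depth (v : List (B K)) (m : ℕ) (w : List (B K)) :
    kk v m w = kk v m (w.take (v.length + m + 1)) ++ w.drop (v.length + m + 1) := by
  by_cases hp : (v ++ List.replicate m 0) <+: w
  · obtain ⟨r, rfl⟩ := hp
    have hlen : (v ++ List.replicate m (0 : B K)).length = v.length + m := by simp
    have e1 : ((v ++ List.replicate m (0 : B K)) ++ r).take (v.length + m + 1) =
        (v ++ List.replicate m 0) ++ r.take 1 := by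
      rw [← hlen, List.take_length_add_append]
    have e2 : ((v ++ List.replicate m (0 : B K)) ++ r).drop (v.length + m + 1) = r.drop 1 := by
      rw [← hlen, List.drop_length_add_append]
    rw [e1, e2]
    unfold kk
    rw [atw_apply, atw_apply, R_eq]
    cases r with
    | nil => simp [rho_nil]
    | cons a r => simp [rho_cons, rho_nil]
  · unfold kk
    rw [atw_apply_of _ _ _ hp, atw_apply_of _ _ _ fun h => hp (h.trans (List.take_prefix _ _)),
      List.take_append_drop]

end

end Pool.Agent.K6.H36.EX
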